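import Pool.Agent.Lib.MP_6c3d62_pr.Mg.G060

/-! Hidden coins: the final theorem. One slab of stirring on the torus is a mixture of laws
`T * ∏ s_q` with independent shuffles `s_q` of bounded density in good windows. -/

open Finset

set_option linter.unusedSectionVars false

namespace Pool.Agent.Stirring.HC

variable {d L : ℕ} [NeZero L]

theorem tr_shift (s x y : Fin d → ZMod L) :
    QK.tr d L (s + x, s + y) = QK.tr d L (x, y) := by
  unfold QK.tr
  refine Finset.sum_congr rfl fun i _ => ?_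
  have : (s + y = s + x + Pi.single i 1) ↔ (y = x + Pi.single i 1) := by
    rw [add_assoc]; exact add_right_inj s
  simp only [this]

theorem mem_box_iff {x z : Fin d → ZMod L} {b : ℕ} : z ∈ box x b ↔ z - x ∈ box 0 b := by
  rw [mem_box, mem_box]
  constructor
  · rintro ⟨c, hc, rfl⟩
    exact ⟨c, hc, by abel⟩
  · rintro ⟨c, hc, h⟩
    refine ⟨c, hc, ?_⟩
    rw [sub_eq_iff_eq_add] at h
    rw [h]; abel

/-- **Hidden coins.** -/
theorem hidden_coins (hd : 1 ≤ d) {b r : ℕ} {h₀ : ℝ} (hb1 : 1 ≤ b) (hb : 8 * b ≤ r)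
    (hr : 2 * r ≤ L) (hh : (r : ℝ) ≤ 8 * h₀)
    (hlog : 128 * h₀ * Real.log (16 * d * (b : ℝ) ^ d) ≤ (r : ℝ) ^ 2)
    (hbig : 1024 * 12 ^ d * (d : ℝ) ^ 2 * (b : ℝ) ^ 2 * ((b : ℝ) ^ d) ^ 3 *
      Real.log ((L : ℝ) ^ d) ≤ h₀) :
    ∃ h : ℝ, h₀ / 2 ≤ h ∧ h ≤ h₀ ∧
      ∃ (Ω : Type) (_ : Fintype Ω) (S : QK.Slab (Fin d → ZMod L) Ω)
        (Λ : Finset (Fin d → ZMod L))
        (ν : Ω → (Fin d → ZMod L) → Equiv.Perm (Fin d → ZMod L) → ℝ),
        QK.SlabLaw (QK.tr d L) h S (box 0 b) Λ ∧ Λ.card = (L / r) ^ d ∧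
        (∀ a, ∀ q ∈ S.good a, (∀ σ, 0 ≤ ν a q σ) ∧ ∑ σ, ν a q σ = 1 ∧
          (∀ σ, ν a q σ ≠ 0 → ∀ v, v - q ∉ box 0 b → σ v = v) ∧
          ∀ σ, ν a q σ ≤ 4 / (((box (0 : Fin d → ZMod L) b).card).factorial : ℝ)) ∧
        (∀ F : Equiv.Perm (Fin d → ZMod L) → (Fin d → ZMod L) → ℝ,
          ∑ a, S.w a * El (ν a) (S.good a).toList (fun π => F (S.T a * π) (S.sh a)) =
            Hier.sg (QK.tr d L) h
              (fun τ => (∑ s, F τ s) / Fintype.card (Fin d → ZMod L)) 1) ∧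
        ∀ z, QK.dens (Fin d → ZMod L) (box 0 b) Λ / 2 ≤
          ∑ a, S.w a * (if QK.InWin (box 0 b) (S.good a) z then 1 else 0) := by
  obtain ⟨h, h1, h2, u, hu, hD⟩ := base (L := L) hd hb1 hb hr hh hlog hbig
  have hW : ∀ x z : Fin d → ZMod L, z ∈ wnd u b x ↔ z - (x + vec d L u) ∈ box 0 b :=
    fun x z => mem_box_iff
  obtain ⟨Ω, _, S, ν, h3, h4, h5, h6⟩ := slab_of_dec tr_shift (Finset.nodup_toList _) (vec d L u)
    hW (fun x hx y hy z hz hz' => wnd_disj hu (Finset.mem_toList.mp hx) (Finset.mem_toList.mp hy)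
      hz hz') hD
  have hcard : (((cors d L r).toList.map (· + vec d L u)).toFinset).card = (L / r) ^ d := by
    rw [List.toFinset_card_of_nodup, List.length_map, Finset.length_toList, card_cors (by omega)]
    exact (Finset.nodup_toList _).map (add_left_injective _)
  refine ⟨h, h1, h2, Ω, _, S, _, ν, h3, hcard, h4, h5, fun z => ?_⟩
  refine le_trans (le_of_eq ?_) (h6 z)
  unfold QK.dens
  rw [hcard]
  push_cast
  ring

end Pool.Agent.Stirring.HC
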