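import Mathlib

/-! Entropy and total variation on a finite set (block (1) of candidate 44, pure part). -/

open Finset

namespace Pool.Agent.Stirring.HC

variable {S : Type*} [Fintype S]

/-- Total variation distance of two weight functions. -/
noncomputable def tv (p q : S → ℝ) : ℝ := (∑ s, |p s - q s|) / 2

/-- Entropy (natural logarithm). -/
noncomputable def ent (p : S → ℝ) : ℝ := ∑ s, Real.negMulLog (p s)

theorem tv_nonneg (p q : S → ℝ) : 0 ≤ tv p q := by
  unfold tv; positivity

theorem tv_comm (p q : S → ℝ) : tv p q = tv q p := by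
  unfold tv; simp_rw [abs_sub_comm]

theorem tv_self (p : S → ℝ) : tv p p = 0 := by simp [tv]

theorem tv_triangle (p q r : S → ℝ) : tv p r ≤ tv p q + tv q r := by
  unfold tv
  rw [← add_div]
  refine div_le_div_of_nonneg_right ?_ (by norm_num)
  rw [← Finset.sum_add_distrib]
  exact Finset.sum_le_sum fun s _ => abs_sub_le _ _ _

theorem tv_comp (p q : S → ℝ) (σ : Equiv.Perm S) :
    tv (fun s => p (σ s)) (fun s => q (σ s)) = tv p q := by
  unfold tv
  rw [Equiv.sum_comp σ (fun s => |p s - q s|)]

theorem tv_le_one {p q : S → ℝ} (hp : ∀ s, 0 ≤ p s) (hq : ∀ s, 0 ≤ q s) (hp1 : ∑ s, p s = 1)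
    (hq1 : ∑ s, q s = 1) : tv p q ≤ 1 := by
  unfold tv
  have h : ∑ s, |p s - q s| ≤ ∑ s, (p s + q s) := by
    refine Finset.sum_le_sum fun s _ => ?_
    have := abs_sub (p s) (q s)
    rw [abs_of_nonneg (hp s), abs_of_nonneg (hq s)] at this
    exact this
  rw [Finset.sum_add_distrib, hp1, hq1] at h
  linarith

theorem ent_comp (p : S → ℝ) (σ : Equiv.Perm S) : ent (fun s => p (σ s)) = ent p := by
  unfold ent
  rw [Equiv.sum_comp σ (fun s => Real.negMulLog (p s))]

theorem ent_nonneg {p : S → ℝ} (hp : ∀ s, 0 ≤ p s) (hp1 : ∑ s, p s = 1) : 0 ≤ ent p := by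
  unfold ent
  refine Finset.sum_nonneg fun s _ => Real.negMulLog_nonneg (hp s) ?_
  rw [← hp1]
  exact Finset.single_le_sum (fun i _ => hp i) (Finset.mem_univ s)

/-- Entropy is at most the logarithm of the number of elements of a set carrying the law. -/
theorem ent_le {p : S → ℝ} (hp : ∀ s, 0 ≤ p s) (hp1 : ∑ s, p s = 1) (A : Finset S)
    (hA : ∀ s, s ∉ A → p s = 0) : ent p ≤ Real.log A.card := by
  classical
  have hsum : ∑ s ∈ A, p s = 1 := by
    rw [← hp1]
    exact Finset.sum_subset (Finset.subset_univ A) (fun s _ hs => hA s hs)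
  have hne : A.Nonempty := by
    by_contra h
    rw [Finset.not_nonempty_iff_eq_empty] at h
    rw [h] at hsum
    simp at hsum
  have hcard : (0 : ℝ) < A.card := by exact_mod_cast hne.card_pos
  have h1 : ent p = ∑ s ∈ A, Real.negMulLog (p s) := by
    unfold ent
    symm
    refine Finset.sum_subset (Finset.subset_univ A) (fun s _ hs => ?_)
    rw [hA s hs]; simp
  have hj := Real.concaveOn_negMulLog.le_map_sum (t := A) (w := fun _ => (1 : ℝ) / A.card) (p := p)
    (fun i _ => by positivity) (by rw [Finset.sum_const, nsmul_eq_mul]; field_simp)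
    (fun i _ => hp i)
  simp only [smul_eq_mul] at hj
  rw [← Finset.mul_sum, ← Finset.mul_sum, hsum, ← h1, mul_one] at hj
  have h2 : Real.negMulLog (1 / (A.card : ℝ)) = 1 / (A.card : ℝ) * Real.log A.card := by
    rw [Real.negMulLog, one_div, Real.log_inv]; ring
  rw [h2] at hj
  have h3 := mul_le_mul_of_nonneg_left hj hcard.le
  rw [← mul_assoc, ← mul_assoc, mul_one_div_cancel hcard.ne', one_mul, one_mul] at h3
  exact h3

/-- Concavity of the entropy. -/
theorem ent_mix {ι : Type*} (t : Finset ι) (w : ι → ℝ) (p : ι → S → ℝ) (hw : ∀ i ∈ t, 0 ≤ w i)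
    (hw1 : ∑ i ∈ t, w i = 1) (hp : ∀ i ∈ t, ∀ s, 0 ≤ p i s) :
    ∑ i ∈ t, w i * ent (p i) ≤ ent (fun s => ∑ i ∈ t, w i * p i s) := by
  unfold ent
  simp_rw [Finset.mul_sum]
  rw [Finset.sum_comm]
  refine Finset.sum_le_sum fun s _ => ?_
  have := Real.concaveOn_negMulLog.le_map_sum (t := t) (w := w) (p := fun i => p i s) hw hw1
    (fun i hi => hp i hi s)
  simpa only [smul_eq_mul] using this

/-- The scalar inequality behind the entropy increment. -/
theorem phi_nonneg {u : ℝ} (h0 : 0 ≤ u) (h1 : u ≤ 1) :
    u ^ 2 ≤ (1 + u) * Real.log (1 + u) + (1 - u) * Real.log (1 - u) := by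
  set g : ℝ → ℝ := fun x => -Real.negMulLog (1 + x) - Real.negMulLog (1 - x) - x ^ 2 with hg
  have hcont : ContinuousOn g (Set.Icc 0 1) := by
    apply Continuous.continuousOn
    have h2 : Continuous fun x : ℝ => Real.negMulLog (1 + x) :=
      Real.continuous_negMulLog.comp (continuous_const.add continuous_id)
    have h3 : Continuous fun x : ℝ => Real.negMulLog (1 - x) :=
      Real.continuous_negMulLog.comp (continuous_const.sub continuous_id)
    exact (h2.neg.sub h3).sub (continuous_pow 2)
  have hder : ∀ x ∈ Set.Ioo (0 : ℝ) 1,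
      HasDerivAt g (Real.log (1 + x) - Real.log (1 - x) - 2 * x) x := by
    intro x hx
    have h2 : HasDerivAt (fun x : ℝ => Real.negMulLog (1 + x)) ((-Real.log (1 + x) - 1) * 1) x := by
      have := Real.hasDerivAt_negMulLog (x := 1 + x) (by linarith [hx.1])
      exact this.comp x ((hasDerivAt_id x).const_add 1)
    have h3 : HasDerivAt (fun x : ℝ => Real.negMulLog (1 - x))
        ((-Real.log (1 - x) - 1) * (-1)) x := by
      have := Real.hasDerivAt_negMulLog (x := 1 - x) (by linarith [hx.2])
      exact this.comp x ((hasDerivAt_id x).const_sub 1)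
    have h4 := (h2.neg.sub h3).sub (hasDerivAt_pow 2 x)
    refine h4.congr_deriv ?_
    push_cast
    ring
  have hmono : MonotoneOn g (Set.Icc 0 1) := by
    refine monotoneOn_of_deriv_nonneg (convex_Icc 0 1) hcont ?_ ?_
    · intro x hx
      rw [interior_Icc] at hx
      exact (hder x hx).differentiableAt.differentiableWithinAt
    · intro x hx
      rw [interior_Icc] at hx
      rw [(hder x hx).deriv]
      have hs := Real.hasSum_log_sub_log_of_abs_lt_one (x := x)
        (by rw [abs_of_nonneg hx.1.le]; exact hx.2)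
      have hs2 := hs.summable
      have h5 : (2 : ℝ) * (1 / (2 * ((0 : ℕ) : ℝ) + 1)) * x ^ (2 * 0 + 1) ≤
          Real.log (1 + x) - Real.log (1 - x) := by
        rw [← hs.tsum_eq]
        refine hs2.le_tsum 0 fun k _ => ?_
        have := hx.1
        positivity
      norm_num at h5
      linarith
  have h := hmono (Set.left_mem_Icc.mpr zero_le_one) ⟨h0, h1⟩ h0
  simp only [hg] at h
  rw [Real.negMulLog, Real.negMulLog, Real.negMulLog, Real.negMulLog] at h
  simp at h
  linarith

theorem phi_nonneg' {u : ℝ} (h : |u| ≤ 1) :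
    u ^ 2 ≤ (1 + u) * Real.log (1 + u) + (1 - u) * Real.log (1 - u) := by
  rcases le_total 0 u with h0 | h0
  · rw [abs_of_nonneg h0] at h
    exact phi_nonneg h0 h
  · rw [abs_of_nonpos h0] at h
    have := phi_nonneg (u := -u) (by linarith) h
    rw [neg_sq, ← sub_eq_add_neg, sub_neg_eq_add] at this
    linarith

theorem negMulLog_mid {a b : ℝ} (ha : 0 ≤ a) (hb : 0 ≤ b) :
    (Real.negMulLog a + Real.negMulLog b) / 2 + (a - b) ^ 2 / (4 * (a + b)) ≤
      Real.negMulLog ((a + b) / 2) := by
  rcases eq_or_lt_of_le (add_nonneg ha hb) with h | h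
  · have ha0 : a = 0 := by linarith
    have hb0 : b = 0 := by linarith
    subst ha0; subst hb0; simp
  · set m := (a + b) / 2 with hm
    have hm0 : 0 < m := by rw [hm]; linarith
    set u := (a - b) / (a + b) with hu
    have hua : a = m * (1 + u) := by rw [hm, hu]; field_simp; ring
    have hub : b = m * (1 - u) := by rw [hm, hu]; field_simp; ring
    have hu1 : |u| ≤ 1 := by
      rw [hu, abs_div, abs_of_pos h, div_le_one h, abs_le]
      constructor <;> linarith
    have key := phi_nonneg' hu1
    have hA : Real.negMulLog a = -(a * Real.log m) - m * ((1 + u) * Real.log (1 + u)) := by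
      rcases eq_or_lt_of_le ha with h0 | h0
      · have h1u : 1 + u = 0 := by
          rcases mul_eq_zero.mp (hua.symm.trans h0.symm) with h2 | h2
          · exact absurd h2 hm0.ne'
          · exact h2
        rw [← h0, h1u]; simp
      · have h1u : 0 < 1 + u := by
          by_contra hcon
          have : m * (1 + u) ≤ 0 := mul_nonpos_of_nonneg_of_nonpos hm0.le (not_lt.mp hcon)
          linarith
        have hlog : Real.log a = Real.log m + Real.log (1 + u) := by
          conv_lhs => rw [hua]
          exact Real.log_mul hm0.ne' h1u.ne'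
        rw [Real.negMulLog, hlog]
        have : m * ((1 + u) * Real.log (1 + u)) = a * Real.log (1 + u) := by
          rw [← mul_assoc, ← hua]
        rw [this]; ring
    have hB : Real.negMulLog b = -(b * Real.log m) - m * ((1 - u) * Real.log (1 - u)) := by
      rcases eq_or_lt_of_le hb with h0 | h0
      · have h1u : 1 - u = 0 := by
          rcases mul_eq_zero.mp (hub.symm.trans h0.symm) with h2 | h2
          · exact absurd h2 hm0.ne'
          · exact h2
        rw [← h0, h1u]; simp
      · have h1u : 0 < 1 - u := by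
          by_contra hcon
          have : m * (1 - u) ≤ 0 := mul_nonpos_of_nonneg_of_nonpos hm0.le (not_lt.mp hcon)
          linarith
        have hlog : Real.log b = Real.log m + Real.log (1 - u) := by
          conv_lhs => rw [hub]
          exact Real.log_mul hm0.ne' h1u.ne'
        rw [Real.negMulLog, hlog]
        have : m * ((1 - u) * Real.log (1 - u)) = b * Real.log (1 - u) := by
          rw [← mul_assoc, ← hub]
        rw [this]; ring
    have hM : Real.negMulLog m = -((a + b) / 2 * Real.log m) := by
      rw [Real.negMulLog, ← hm]; ring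
    have hsq : (a - b) ^ 2 / (4 * (a + b)) = m * u ^ 2 / 2 := by
      rw [hm, hu]; field_simp; ring
    rw [hA, hB, hM, hsq]
    have := mul_le_mul_of_nonneg_left key hm0.le
    nlinarith [this]

/-- Entropy increment of a fair mixture: `JSD ≥ TV² / 2`. -/
theorem ent_mid {p q : S → ℝ} (hp : ∀ s, 0 ≤ p s) (hq : ∀ s, 0 ≤ q s) (hp1 : ∑ s, p s = 1)
    (hq1 : ∑ s, q s = 1) :
    (ent p + ent q) / 2 + tv p q ^ 2 / 2 ≤ ent (fun s => (p s + q s) / 2) := by
  have h1 : ∑ s, ((Real.negMulLog (p s) + Real.negMulLog (q s)) / 2 +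
      (p s - q s) ^ 2 / (4 * (p s + q s))) ≤ ent (fun s => (p s + q s) / 2) :=
    Finset.sum_le_sum fun s _ => negMulLog_mid (hp s) (hq s)
  have h2 : tv p q ^ 2 / 2 ≤ ∑ s, (p s - q s) ^ 2 / (4 * (p s + q s)) := by
    have hcs := Finset.sum_sq_le_sum_mul_sum_of_sq_le_mul (Finset.univ : Finset S)
      (r := fun s => |p s - q s|) (f := fun s => (p s - q s) ^ 2 / (4 * (p s + q s)))
      (g := fun s => 4 * (p s + q s))
      (fun s _ => div_nonneg (sq_nonneg _) (by have := hp s; have := hq s; positivity))
      (fun s _ => by have := hp s; have := hq s; positivity)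
      (fun s _ => by
        have h0 := hp s
        have h0' := hq s
        refine le_of_eq ?_
        rw [sq_abs]
        rcases eq_or_ne (p s + q s) 0 with h | h
        · have ha : p s = 0 := by linarith
          have hb : q s = 0 := by linarith
          rw [ha, hb]; simp
        · field_simp)
    rw [← Finset.mul_sum, Finset.sum_add_distrib, hp1, hq1] at hcs
    unfold tv
    rw [div_pow]
    linarith
  rw [Finset.sum_add_distrib, ← Finset.sum_div, Finset.sum_add_distrib] at h1
  unfold ent at *
  linarith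

/-- Mixing a law with its image under a permutation of the states. -/
theorem ent_step {p : S → ℝ} (hp : ∀ s, 0 ≤ p s) (hp1 : ∑ s, p s = 1) (σ : Equiv.Perm S) :
    ent p + tv p (fun s => p (σ s)) ^ 2 / 2 ≤ ent (fun s => (p s + p (σ s)) / 2) := by
  have h := ent_mid hp (q := fun s => p (σ s)) (fun s => hp _) hp1
    (by rw [Equiv.sum_comp σ p]; exact hp1)
  rw [ent_comp] at h
  linarith

end Pool.Agent.Stirring.HC
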