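import Pool.Agent.Lib.MP_6c3d62_pr.HC.En1

/-! Invariance defect of a law under a finite group, and the part of the law with density at most
four on the orbits. -/

open Finset

set_option linter.unusedSectionVars false

namespace Pool.Agent.Stirring.HC

section Act

variable {S : Type*} [Fintype S] {G : Type*} [Group G] [MulAction G S]

/-- The law moved by a group element. -/
def act (p : S → ℝ) (g : G) : S → ℝ := fun s => p (g • s)

theorem act_one (p : S → ℝ) : act p (1 : G) = p := by
  funext s; simp [act]

theorem act_mul (p : S → ℝ) (g h : G) : act p (g * h) = act (act p g) h := by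
  funext s; simp [act, mul_smul]

theorem sum_act (p : S → ℝ) (g : G) : ∑ s, act p g s = ∑ s, p s :=
  Equiv.sum_comp (MulAction.toPerm g) p

theorem tv_act (p q : S → ℝ) (g : G) : tv (act p g) (act q g) = tv p q :=
  tv_comp p q (MulAction.toPerm g)

theorem tv_act_mul (p : S → ℝ) (g h : G) : tv p (act p (g * h)) ≤ tv p (act p g) + tv p (act p h) := by
  rw [act_mul, add_comm]
  refine (tv_triangle p (act p h) _).trans ?_
  rw [tv_act]

theorem tv_act_inv (p : S → ℝ) (g : G) : tv p (act p g⁻¹) = tv p (act p g) := by
  rw [← tv_act p (act p g⁻¹) g, ← act_mul, inv_mul_cancel, act_one, tv_comm]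

/-- Total variation cost of a word. -/
theorem tv_act_prod (p : S → ℝ) (l : List G) :
    tv p (act p l.prod) ≤ (l.map fun g => tv p (act p g)).sum := by
  induction l with
  | nil => simp [act_one, tv_self]
  | cons g l ih =>
    rw [List.prod_cons, List.map_cons, List.sum_cons]
    exact (tv_act_mul p g l.prod).trans (by linarith)

theorem tv_act_prod_le (p : S → ℝ) (l : List G) {b : ℝ} (hb : ∀ g ∈ l, tv p (act p g) ≤ b) :
    tv p (act p l.prod) ≤ l.length * b := by
  refine (tv_act_prod p l).trans ?_
  have := List.sum_le_card_nsmul (l.map fun g => tv p (act p g)) b (by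
    intro x hx
    rw [List.mem_map] at hx
    obtain ⟨g, hg, rfl⟩ := hx
    exact hb g hg)
  rw [List.length_map, nsmul_eq_mul] at this
  exact this

variable [Fintype G]

/-- Average of a law over the orbits. -/
noncomputable def pbar (G : Type*) [Group G] [MulAction G S] [Fintype G] (p : S → ℝ) : S → ℝ :=
  fun s => (∑ g : G, p (g • s)) / Fintype.card G

theorem pbar_smul (p : S → ℝ) (g : G) (s : S) : pbar G p (g • s) = pbar G p s := by
  unfold pbar
  congr 1
  simp_rw [← mul_smul]
  exact Equiv.sum_comp (Equiv.mulRight g) (fun h : G => p (h • s))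

theorem card_pos' : (0 : ℝ) < Fintype.card G := by exact_mod_cast Fintype.card_pos

theorem pbar_mono {p q : S → ℝ} (h : ∀ s, p s ≤ q s) (s : S) : pbar G p s ≤ pbar G q s :=
  div_le_div_of_nonneg_right (Finset.sum_le_sum fun _ _ => h _) (card_pos' (G := G)).le

theorem pbar_nonneg {p : S → ℝ} (h : ∀ s, 0 ≤ p s) (s : S) : 0 ≤ pbar G p s :=
  div_nonneg (Finset.sum_nonneg fun _ _ => h _) (card_pos' (G := G)).le

theorem sum_pbar_mul (p F : S → ℝ) :
    ∑ s, pbar G p s * F s = ∑ s, p s * pbar G F s := by
  unfold pbar
  simp_rw [div_mul_eq_mul_div, mul_div_assoc', Finset.sum_mul, Finset.mul_sum]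
  rw [← Finset.sum_div, ← Finset.sum_div]
  congr 1
  rw [Finset.sum_comm, Finset.sum_comm (s := (Finset.univ : Finset S))]
  rw [← Equiv.sum_comp (Equiv.inv G)]
  refine Finset.sum_congr rfl fun g _ => ?_
  rw [← Equiv.sum_comp (MulAction.toPerm g)]
  refine Finset.sum_congr rfl fun s _ => ?_
  simp

theorem sum_pbar (p : S → ℝ) : ∑ s, pbar G p s = ∑ s, p s := by
  have h := sum_pbar_mul (G := G) p (fun _ => 1)
  simp only [mul_one] at h
  rw [h]
  refine Finset.sum_congr rfl fun s _ => ?_
  unfold pbar
  rw [Finset.sum_const, Finset.card_univ, nsmul_eq_mul, mul_one, div_self (card_pos' (G := G)).ne',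
    mul_one]

/-- Distance of a law to its average over the orbits. -/
theorem sum_abs_pbar_le (p : S → ℝ) {ε : ℝ} (hε : ∀ g : G, tv p (act p g) ≤ ε) :
    ∑ s, |p s - pbar G p s| ≤ 2 * ε := by
  have hc := card_pos' (G := G)
  have h1 : ∀ s, |p s - pbar G p s| ≤ (∑ g : G, |p s - p (g • s)|) / Fintype.card G := by
    intro s
    have h2 : p s - pbar G p s = (∑ g : G, (p s - p (g • s))) / Fintype.card G := by
      unfold pbar
      rw [Finset.sum_sub_distrib, Finset.sum_const, Finset.card_univ, nsmul_eq_mul]
      field_simp
    rw [h2, abs_div, abs_of_pos hc]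
    exact div_le_div_of_nonneg_right (Finset.abs_sum_le_sum_abs _ _) hc.le
  refine (Finset.sum_le_sum fun s _ => h1 s).trans ?_
  rw [← Finset.sum_div, Finset.sum_comm, div_le_iff₀ hc]
  have h3 : ∀ g : G, ∑ s, |p s - p (g • s)| ≤ 2 * ε := by
    intro g
    have := hε g
    unfold tv act at this
    linarith
  refine (Finset.sum_le_sum fun g _ => h3 g).trans ?_
  rw [Finset.sum_const, Finset.card_univ, nsmul_eq_mul]
  exact le_of_eq (by ring)

theorem pbar_inv (c : S → ℝ) (hc : ∀ (g : G) (s : S), c (g • s) = c s) (s : S) :
    pbar G c s = c s := by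
  unfold pbar
  simp_rw [hc]
  rw [Finset.sum_const, Finset.card_univ, nsmul_eq_mul, mul_comm, mul_div_assoc,
    div_self (card_pos' (G := G)).ne', mul_one]

/-- The part of the law below twice its average. -/
noncomputable def cut (G : Type*) [Group G] [MulAction G S] [Fintype G] (p : S → ℝ) : S → ℝ :=
  fun s => min (p s) (2 * pbar G p s)

open Classical in
/-- The good part of the law: the part below twice the average, on the orbits where it has at
least half of the mass. -/
noncomputable def good (G : Type*) [Group G] [MulAction G S] [Fintype G] (p : S → ℝ) : S → ℝ :=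
  fun s => if pbar G p s ≤ 2 * pbar G (cut G p) s then cut G p s else 0

theorem cut_nonneg {p : S → ℝ} (hp : ∀ s, 0 ≤ p s) (s : S) : 0 ≤ cut G p s :=
  le_min (hp s) (by have := pbar_nonneg (G := G) hp s; linarith)

theorem cut_le {p : S → ℝ} (s : S) : cut G p s ≤ p s := min_le_left _ _

theorem good_nonneg {p : S → ℝ} (hp : ∀ s, 0 ≤ p s) (s : S) : 0 ≤ good G p s := by
  unfold good
  split_ifs
  · exact cut_nonneg hp s
  · exact le_rfl

theorem good_le {p : S → ℝ} (hp : ∀ s, 0 ≤ p s) (s : S) : good G p s ≤ p s := by
  unfold good
  split_ifs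
  · exact cut_le s
  · exact hp s

theorem pbar_good (p : S → ℝ) (s : S) :
    pbar G (good G p) s = if pbar G p s ≤ 2 * pbar G (cut G p) s then pbar G (cut G p) s else 0 := by
  classical
  have h : ∀ g : G, good G p (g • s) =
      if pbar G p s ≤ 2 * pbar G (cut G p) s then cut G p (g • s) else 0 := by
    intro g
    unfold good
    rw [pbar_smul, pbar_smul]
  have h2 : pbar G (good G p) s = (∑ g : G, good G p (g • s)) / Fintype.card G := rfl
  rw [h2]
  simp_rw [h]
  split_ifs
  · rfl
  · simp

/-- The good part has density at most four on the orbits. -/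
theorem good_le_four {p : S → ℝ} (hp : ∀ s, 0 ≤ p s) (s : S) :
    good G p s ≤ 4 * pbar G (good G p) s := by
  rw [pbar_good]
  unfold good
  split_ifs with h
  · have : cut G p s ≤ 2 * pbar G p s := min_le_right _ _
    linarith
  · simp

/-- The bad part is small. -/
theorem bad_le {p : S → ℝ} (hp : ∀ s, 0 ≤ p s) {ε : ℝ} (hε : ∀ g : G, tv p (act p g) ≤ ε) :
    ∑ s, (p s - good G p s) ≤ 2 * ε := by
  classical
  set A : S → Prop := fun s => pbar G p s ≤ 2 * pbar G (cut G p) s with hA
  have hA1 : ∀ s, pbar G (fun s => if A s then (0 : ℝ) else 1) s = if A s then 0 else 1 := by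
    refine pbar_inv (fun s => if A s then (0 : ℝ) else 1) fun g s => ?_
    have : A (g • s) ↔ A s := by simp only [hA, pbar_smul]
    simp only [this]
  -- the cut part
  have h1 : ∀ s, p s - cut G p s ≤ (|p s - pbar G p s| + (p s - pbar G p s)) / 2 := by
    intro s
    unfold cut
    have h0 := pbar_nonneg (G := G) hp s
    rcases le_total (p s) (2 * pbar G p s) with h | h
    · rw [min_eq_left h]
      have := neg_abs_le (p s - pbar G p s)
      linarith
    · rw [min_eq_right h]
      have := le_abs_self (p s - pbar G p s)
      linarith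
  have h2 : ∑ s, (p s - cut G p s) ≤ ε := by
    refine (Finset.sum_le_sum fun s _ => h1 s).trans ?_
    rw [← Finset.sum_div, Finset.sum_add_distrib, Finset.sum_sub_distrib, sum_pbar, sub_self,
      add_zero]
    have := sum_abs_pbar_le p hε
    linarith
  -- the sum over the invariant set of bad orbits
  have h3 : ∑ s, (if A s then 0 else p s) = ∑ s, (if A s then 0 else pbar G p s) := by
    have h := sum_pbar_mul (G := G) p (fun s => if A s then 0 else 1)
    simp_rw [hA1] at h
    simp only [mul_ite, mul_zero, mul_one] at h
    exact h.symm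
  have h5 : ∑ s, (if A s then 0 else cut G p s) = ∑ s, (if A s then 0 else pbar G (cut G p) s) := by
    have h := sum_pbar_mul (G := G) (cut G p) (fun s => if A s then 0 else 1)
    simp_rw [hA1] at h
    simp only [mul_ite, mul_zero, mul_one] at h
    exact h.symm
  have h6 : ∑ s, (if A s then 0 else p s) ≤ 2 * ∑ s, (if A s then 0 else p s - cut G p s) := by
    have h7 : ∑ s, (if A s then 0 else p s - cut G p s) =
        ∑ s, (if A s then 0 else pbar G p s) - ∑ s, (if A s then 0 else pbar G (cut G p) s) := by
      rw [← h3, ← h5, ← Finset.sum_sub_distrib]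
      refine Finset.sum_congr rfl fun s _ => ?_
      split_ifs <;> simp
    rw [h7, h3, ← Finset.sum_sub_distrib, Finset.mul_sum]
    refine Finset.sum_le_sum fun s _ => ?_
    split_ifs with h
    · simp
    · simp only [hA, not_le] at h
      linarith
  have h8 : ∑ s, (p s - good G p s) =
      ∑ s, (if A s then p s - cut G p s else 0) + ∑ s, (if A s then 0 else p s) := by
    rw [← Finset.sum_add_distrib]
    refine Finset.sum_congr rfl fun s _ => ?_
    unfold good
    by_cases h : A s
    · rw [if_pos h, if_pos h, if_pos h]; ring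
    · rw [if_neg h, if_neg h, if_neg h]; ring
  have h9 : ∑ s, (if A s then p s - cut G p s else 0) +
      ∑ s, (if A s then 0 else p s - cut G p s) = ∑ s, (p s - cut G p s) := by
    rw [← Finset.sum_add_distrib]
    refine Finset.sum_congr rfl fun s _ => ?_
    split_ifs <;> ring
  have h10 : 0 ≤ ∑ s, (if A s then p s - cut G p s else 0) := by
    refine Finset.sum_nonneg fun s _ => ?_
    split_ifs
    · have := cut_le (G := G) (p := p) s
      linarith
    · exact le_rfl
  rw [h8]
  linarith

/-- Disintegration of the good part: a point of the orbit chosen with density at most four. -/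
theorem good_disint {p : S → ℝ} (hp : ∀ s, 0 ≤ p s) :
    ∃ μ : S → G → ℝ, (∀ s g, 0 ≤ μ s g) ∧ (∀ s g, μ s g ≤ 4 / Fintype.card G) ∧
      (∀ s, ∑ g, μ s g = 1) ∧
      ∀ F : S → ℝ, ∑ s, good G p s * F s =
        ∑ s, pbar G (good G p) s * ∑ g : G, μ s g * F (g • s) := by
  classical
  have hc := card_pos' (G := G)
  have hq : ∀ s, 0 ≤ good G p s := good_nonneg hp
  have hqb : ∀ s, 0 ≤ pbar G (good G p) s := pbar_nonneg hq
  refine ⟨fun s g => if pbar G (good G p) s = 0 then 1 / Fintype.card G else
    good G p (g • s) / (Fintype.card G * pbar G (good G p) s), ?_, ?_, ?_, ?_⟩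
  · intro s g
    dsimp only
    split_ifs
    · positivity
    · exact div_nonneg (hq _) (mul_nonneg hc.le (hqb s))
  · intro s g
    dsimp only
    split_ifs with h
    · exact div_le_div_of_nonneg_right (by norm_num) hc.le
    · have hpos : 0 < pbar G (good G p) s := lt_of_le_of_ne (hqb s) (Ne.symm h)
      have h4 := good_le_four (G := G) hp (g • s)
      rw [pbar_smul] at h4
      rw [div_le_div_iff₀ (mul_pos hc hpos) hc]
      nlinarith
  · intro s
    dsimp only
    split_ifs with h
    · rw [Finset.sum_const, Finset.card_univ, nsmul_eq_mul, mul_one_div_cancel hc.ne']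
    · rw [← Finset.sum_div]
      have : ∑ g : G, good G p (g • s) = Fintype.card G * pbar G (good G p) s := by
        unfold pbar
        rw [mul_div_cancel₀ _ hc.ne']
      rw [this, div_self (mul_ne_zero hc.ne' h)]
  · intro F
    have h1 : ∀ s, pbar G (good G p) s * ∑ g : G, (if pbar G (good G p) s = 0 then
        1 / (Fintype.card G : ℝ) else
        good G p (g • s) / (Fintype.card G * pbar G (good G p) s)) * F (g • s) =
        pbar G (fun s => good G p s * F s) s := by
      intro s
      by_cases h : pbar G (good G p) s = 0
      · rw [h, zero_mul]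
        have h2 : ∀ g : G, good G p (g • s) = 0 := by
          have h3 : ∑ g : G, good G p (g • s) = 0 := by
            unfold pbar at h
            rw [div_eq_zero_iff] at h
            rcases h with h | h
            · exact h
            · exact absurd h hc.ne'
          intro g
          exact (Finset.sum_eq_zero_iff_of_nonneg (fun g _ => hq _)).mp h3 g (Finset.mem_univ g)
        have h5 : pbar G (fun s => good G p s * F s) s =
            (∑ g : G, good G p (g • s) * F (g • s)) / Fintype.card G := rfl
        rw [h5]
        simp [h2]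
      · have h5 : pbar G (fun s => good G p s * F s) s =
            (∑ g : G, good G p (g • s) * F (g • s)) / Fintype.card G := rfl
        rw [h5, Finset.mul_sum, Finset.sum_div]
        refine Finset.sum_congr rfl fun g _ => ?_
        rw [if_neg h]
        field_simp
    simp_rw [h1]
    rw [sum_pbar]

/-- Resampling of the good part in its orbit: starting from the good part and moving by a group
element chosen with density at most four gives the good part again. -/
theorem good_resample {p : S → ℝ} (hp : ∀ s, 0 ≤ p s) :
    ∃ μ : S → G → ℝ, (∀ s g, 0 ≤ μ s g) ∧ (∀ s g, μ s g ≤ 4 / Fintype.card G) ∧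
      (∀ s, ∑ g, μ s g = 1) ∧
      ∀ F : S → ℝ, ∑ s, good G p s * F s =
        ∑ s, good G p s * ∑ g : G, μ s g * F (g • s) := by
  classical
  have hc := card_pos' (G := G)
  have hq : ∀ s, 0 ≤ good G p s := good_nonneg hp
  have hqb : ∀ s, 0 ≤ pbar G (good G p) s := pbar_nonneg hq
  have hz : ∀ s, pbar G (good G p) s = 0 → ∀ g : G, good G p (g • s) = 0 := by
    intro s h
    have h3 : ∑ g : G, good G p (g • s) = 0 := by
      unfold pbar at h
      rw [div_eq_zero_iff] at h
      rcases h with h | h
      · exact h
      · exact absurd h hc.ne'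
    intro g
    exact (Finset.sum_eq_zero_iff_of_nonneg (fun g _ => hq _)).mp h3 g (Finset.mem_univ g)
  refine ⟨fun s g => if pbar G (good G p) s = 0 then 1 / Fintype.card G else
    good G p (g • s) / (Fintype.card G * pbar G (good G p) s), ?_, ?_, ?_, ?_⟩
  · intro s g
    dsimp only
    split_ifs
    · positivity
    · exact div_nonneg (hq _) (mul_nonneg hc.le (hqb s))
  · intro s g
    dsimp only
    split_ifs with h
    · exact div_le_div_of_nonneg_right (by norm_num) hc.le
    · have hpos : 0 < pbar G (good G p) s := lt_of_le_of_ne (hqb s) (Ne.symm h)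
      have h4 := good_le_four (G := G) hp (g • s)
      rw [pbar_smul] at h4
      rw [div_le_div_iff₀ (mul_pos hc hpos) hc]
      nlinarith
  · intro s
    dsimp only
    split_ifs with h
    · rw [Finset.sum_const, Finset.card_univ, nsmul_eq_mul, mul_one_div_cancel hc.ne']
    · rw [← Finset.sum_div]
      have : ∑ g : G, good G p (g • s) = Fintype.card G * pbar G (good G p) s := by
        unfold pbar
        rw [mul_div_cancel₀ _ hc.ne']
      rw [this, div_self (mul_ne_zero hc.ne' h)]
  · intro F
    -- symmetric form of the transition weights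
    have h1 : ∀ (s : S) (g : G), good G p s * ((if pbar G (good G p) s = 0 then
        1 / (Fintype.card G : ℝ) else
        good G p (g • s) / (Fintype.card G * pbar G (good G p) s)) * F (g • s)) =
        good G p (g⁻¹ • g • s) * good G p (g • s) * F (g • s) /
          (Fintype.card G * pbar G (good G p) (g • s)) := by
      intro s g
      rw [inv_smul_smul, pbar_smul]
      by_cases h : pbar G (good G p) s = 0
      · have := hz s h 1
        rw [one_smul] at this
        rw [this]; simp
      · rw [if_neg h]; ring
    simp_rw [Finset.mul_sum, h1]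
    rw [Finset.sum_comm]
    have h2 : ∀ g : G, ∑ s, good G p (g⁻¹ • g • s) * good G p (g • s) * F (g • s) /
          (Fintype.card G * pbar G (good G p) (g • s)) =
        ∑ s, good G p (g⁻¹ • s) * good G p s * F s /
          (Fintype.card G * pbar G (good G p) s) := fun g =>
      Equiv.sum_comp (MulAction.toPerm g) fun s => good G p (g⁻¹ • s) * good G p s * F s /
          (Fintype.card G * pbar G (good G p) s)
    simp_rw [h2]
    rw [Finset.sum_comm]
    refine Finset.sum_congr rfl fun s _ => ?_
    have h6 : ∑ g : G, good G p (g⁻¹ • s) * good G p s * F s /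
        (Fintype.card G * pbar G (good G p) s) = ∑ g : G, good G p (g • s) * good G p s * F s /
        (Fintype.card G * pbar G (good G p) s) :=
      Equiv.sum_comp (Equiv.inv G) (fun g => good G p (g • s) * good G p s * F s /
          (Fintype.card G * pbar G (good G p) s))
    rw [h6, ← Finset.sum_div]
    simp_rw [mul_assoc]
    rw [← Finset.sum_mul]
    by_cases h : pbar G (good G p) s = 0
    · have := hz s h 1
      rw [one_smul] at this
      rw [this]; simp
    · have h5 : ∑ g : G, good G p (g • s) = Fintype.card G * pbar G (good G p) s := by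
        unfold pbar
        rw [mul_div_cancel₀ _ hc.ne']
      rw [h5]
      field_simp

end Act

end Pool.Agent.Stirring.HC
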