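import Pool.Agent.Lib.MP_6c3d62_pr.HC.En2

/-! Laws on the permutations of a finite set: right multiplication, words in neighbour
transpositions of a window. -/

open Finset Equiv

set_option linter.unusedSectionVars false

namespace Pool.Agent.Stirring.HC

section Rm

variable {V : Type*} [Fintype V] [DecidableEq V]

/-- Right multiplication. -/
def rm (g : Perm V) (p : Perm V → ℝ) : Perm V → ℝ := fun π => p (π * g)

/-- Probability weights on permutations. -/
structure IsLaw (p : Perm V → ℝ) : Prop where
  nn : ∀ π, 0 ≤ p π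
  one : ∑ π, p π = 1

/-- The law is carried by the permutations of `C`. -/
def SuppIn (C : Finset V) (p : Perm V → ℝ) : Prop := ∀ π, p π ≠ 0 → ∀ z, z ∉ C → π z = z

theorem sum_mul_right (F : Perm V → ℝ) (g : Perm V) : ∑ π, F (π * g) = ∑ π, F π :=
  Equiv.sum_comp (Equiv.mulRight g) F

theorem sum_mul_left (F : Perm V → ℝ) (g : Perm V) : ∑ π, F (g * π) = ∑ π, F π :=
  Equiv.sum_comp (Equiv.mulLeft g) F

theorem rm_law {p : Perm V → ℝ} (hp : IsLaw p) (g : Perm V) : IsLaw (rm g p) :=
  ⟨fun π => hp.nn _, by unfold rm; rw [sum_mul_right]; exact hp.one⟩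

theorem rm_one (p : Perm V → ℝ) : rm 1 p = p := by funext π; simp [rm]

theorem rm_mul (g h : Perm V) (p : Perm V → ℝ) : rm (g * h) p = rm g (rm h p) := by
  funext π; simp [rm, mul_assoc]

theorem tv_rm (p q : Perm V → ℝ) (g : Perm V) : tv (rm g p) (rm g q) = tv p q :=
  tv_comp p q (Equiv.mulRight g)

/-- Entropy increment of one hidden ring. -/
theorem ent_step_rm {p : Perm V → ℝ} (hp : IsLaw p) (t : Perm V) :
    ent p + tv p (rm t p) ^ 2 / 2 ≤ ent (fun π => (p π + rm t p π) / 2) :=
  ent_step hp.nn hp.one (Equiv.mulRight t)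

theorem ent_rm (p : Perm V → ℝ) (g : Perm V) : ent (rm g p) = ent p :=
  ent_comp p (Equiv.mulRight g)

theorem ent_lm (p : Perm V → ℝ) (g : Perm V) : ent (fun π => p (g * π)) = ent p :=
  ent_comp p (Equiv.mulLeft g)

theorem ent_conj (p : Perm V → ℝ) (t : Perm V) : ent (fun π => p (t * π * t)) = ent p :=
  (ent_lm (rm t p) t).trans (ent_rm p t)

/-- Entropy of a law on the permutations of `C`. -/
theorem ent_le_supp {p : Perm V → ℝ} (hp : IsLaw p) {C : Finset V} (hC : SuppIn C p) :
    ent p ≤ C.card * Real.log (Fintype.card V) := by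
  classical
  rcases isEmpty_or_nonempty V with hV | hV
  · have h1 : ent p ≤ Real.log ((Finset.univ : Finset (Perm V)).card) :=
      ent_le hp.nn hp.one Finset.univ (fun s hs => absurd (Finset.mem_univ s) hs)
    have h2 : (Finset.univ : Finset (Perm V)).card = 1 := by
      rw [Finset.card_univ, Fintype.card_perm]
      simp
    have h3 : C.card = 0 := by
      rw [Finset.card_eq_zero]
      ext x
      exact (IsEmpty.false x).elim
    rw [h2] at h1
    rw [h3]
    simpa using h1
  set A : Finset (Perm V) := Finset.univ.filter fun π => ∀ z, z ∉ C → π z = z with hA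
  have h1 : ent p ≤ Real.log A.card := by
    refine ent_le hp.nn hp.one A fun π hπ => ?_
    by_contra h
    refine hπ ?_
    rw [hA, Finset.mem_filter]
    exact ⟨Finset.mem_univ _, hC π h⟩
  have h2 : A.card ≤ Fintype.card V ^ C.card := by
    have h3 : A.card ≤ Fintype.card (C → V) := by
      rw [← Finset.card_univ]
      refine Finset.card_le_card_of_injOn (fun π => fun c : C => π c) (fun _ _ => Finset.mem_coe.mpr (Finset.mem_univ _)) ?_
      intro π hπ π' hπ' h
      have hm := (Finset.mem_filter.mp (Finset.mem_coe.mp hπ)).2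
      have hm' := (Finset.mem_filter.mp (Finset.mem_coe.mp hπ')).2
      refine Equiv.ext fun z => ?_
      by_cases hz : z ∈ C
      · exact congrFun h ⟨z, hz⟩
      · rw [hm z hz, hm' z hz]
    rw [Fintype.card_fun, Fintype.card_coe] at h3
    exact h3
  have hpos : 0 < A.card := by
    rw [Finset.card_pos]
    exact ⟨1, by rw [hA, Finset.mem_filter]; exact ⟨Finset.mem_univ _, fun z _ => rfl⟩⟩
  refine h1.trans ?_
  rw [← Real.log_pow]
  refine Real.log_le_log (by exact_mod_cast hpos) ?_
  exact_mod_cast h2

/-- The cost of a permutation. -/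
noncomputable def cost (p : Perm V → ℝ) (g : Perm V) : ℝ := tv p (rm g p)

theorem cost_nonneg (p : Perm V → ℝ) (g : Perm V) : 0 ≤ cost p g := tv_nonneg _ _

theorem cost_one (p : Perm V → ℝ) : cost p 1 = 0 := by
  unfold cost; rw [rm_one, tv_self]

theorem cost_mul (p : Perm V → ℝ) (g h : Perm V) : cost p (g * h) ≤ cost p g + cost p h := by
  unfold cost
  refine (tv_triangle p (rm g p) _).trans ?_
  rw [rm_mul, tv_rm]

/-- Points of `W` joined by a path of `k` steps inside `W`. -/
inductive Joined (W : Finset V) (adj : V → V → Prop) : ℕ → V → V → Prop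
  | refl (x : V) (hx : x ∈ W) : Joined W adj 0 x x
  | step {k : ℕ} {x y z : V} (hx : x ∈ W) (hy : y ∈ W) (h : adj x y) (hk : Joined W adj k y z) :
      Joined W adj (k + 1) x z

theorem cost_joined {p : Perm V → ℝ} {W : Finset V} {adj : V → V → Prop} {e : ℝ} (he : 0 ≤ e)
    (h : ∀ x ∈ W, ∀ y ∈ W, adj x y → cost p (swap x y) ≤ e) {k : ℕ} {x z : V}
    (hj : Joined W adj k x z) : cost p (swap x z) ≤ 2 * k * e := by
  induction hj with
  | refl x hx =>
    have h3 : cost p (swap x x) = 0 := by rw [swap_self]; exact cost_one p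
    rw [h3]; simp
  | @step k x y z hx hy hxy hk ih =>
    have h1 := h x hx y hy hxy
    push_cast
    have hk0 : 0 ≤ 2 * (k : ℝ) * e := by positivity
    rcases eq_or_ne x z with h2 | h2
    · rw [h2, swap_self]
      have := cost_one p
      have h3 : cost p (Equiv.refl V) = 0 := this
      rw [h3]; positivity
    rcases eq_or_ne y z with h3 | h3
    · rw [← h3]; nlinarith
    rcases eq_or_ne x y with h4 | h4
    · rw [h4]; nlinarith
    have h5 : swap x z = swap x y * swap y z * swap x y := by
      have := Equiv.swap_mul_swap_mul_swap (x := z) (y := y) (z := x) h3.symm h2.symm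
      rw [← this, swap_comm z y, swap_comm y x]
    rw [h5]
    have h6 := cost_mul p (swap x y * swap y z) (swap x y)
    have h7 := cost_mul p (swap x y) (swap y z)
    nlinarith

/-- Every permutation of a window is a word in neighbour transpositions: total variation. -/
theorem cost_perm {p : Perm V → ℝ} {W : Finset V} {adj : V → V → Prop} {e : ℝ} (he : 0 ≤ e)
    (h : ∀ x ∈ W, ∀ y ∈ W, adj x y → cost p (swap x y) ≤ e) {K : ℕ}
    (hK : ∀ x ∈ W, ∀ y ∈ W, ∃ k ≤ K, Joined W adj k x y) (s : Perm V)
    (hs : ∀ z, z ∉ W → s z = z) : cost p s ≤ 2 * K * W.card * e := by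
  have key : ∀ n : ℕ, ∀ s : Perm V, (∀ z, z ∉ W → s z = z) → s.support.card ≤ n →
      cost p s ≤ 2 * K * n * e := by
    intro n
    induction n with
    | zero =>
      intro s _ hc
      have : s = 1 := by
        rw [← Equiv.Perm.card_support_eq_zero]
        omega
      rw [this, cost_one]
      simp
    | succ n ih =>
      intro s hs hc
      rcases eq_or_ne s 1 with h1 | h1
      · rw [h1, cost_one]; positivity
      obtain ⟨x, hx⟩ : ∃ x, s x ≠ x := by
        by_contra hcon
        push Not at hcon
        exact h1 (Equiv.ext hcon)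
      have hxW : x ∈ W := by
        by_contra hcon
        exact hx (hs x hcon)
      have hsxW : s x ∈ W := by
        by_contra hcon
        have := hs (s x) hcon
        exact hx (s.injective this)
      have h2 := Equiv.Perm.card_support_swap_mul (f := s) hx
      have h3 : ∀ z, z ∉ W → (swap x (s x) * s) z = z := by
        intro z hz
        rw [Equiv.Perm.mul_apply, hs z hz]
        refine swap_apply_of_ne_of_ne ?_ ?_
        · rintro rfl; exact hz hxW
        · rintro rfl; exact hz hsxW
      have h4 := ih _ h3 (by omega)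
      obtain ⟨k, hk, hj⟩ := hK x hxW (s x) hsxW
      have h5 := cost_joined he h hj
      have h6 := cost_mul p (swap x (s x)) (swap x (s x) * s)
      rw [← mul_assoc, Equiv.swap_mul_self, one_mul] at h6
      have h7 : (k : ℝ) ≤ K := by exact_mod_cast hk
      push_cast
      nlinarith [mul_le_mul_of_nonneg_right h7 he]
  refine key W.card s hs (Finset.card_le_card fun z hz => ?_)
  by_contra hcon
  exact (Equiv.Perm.mem_support.mp hz) (hs z hcon)

theorem tv_perm {p : Perm V → ℝ} {W : Finset V} {adj : V → V → Prop} {e : ℝ} (he : 0 ≤ e)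
    (h : ∀ x ∈ W, ∀ y ∈ W, adj x y → tv p (rm (swap x y) p) ≤ e) {K : ℕ}
    (hK : ∀ x ∈ W, ∀ y ∈ W, ∃ k ≤ K, Joined W adj k x y) (s : Perm V)
    (hs : ∀ z, z ∉ W → s z = z) : tv p (rm s p) ≤ 2 * K * W.card * e :=
  cost_perm he h hK s hs

end Rm

section Box

variable {d L : ℕ}

/-- The cube with corner `x` and side `b`. -/
def box (x : Fin d → ZMod L) (b : ℕ) : Finset (Fin d → ZMod L) :=
  (Finset.univ : Finset (Fin d → Fin b)).image fun c => x + fun i => ((c i : ℕ) : ZMod L)

theorem mem_box {x z : Fin d → ZMod L} {b : ℕ} :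
    z ∈ box x b ↔ ∃ c : Fin d → ℕ, (∀ i, c i < b) ∧ z = x + fun i => ((c i : ℕ) : ZMod L) := by
  unfold box
  rw [Finset.mem_image]
  constructor
  · rintro ⟨c, _, rfl⟩
    exact ⟨fun i => c i, fun i => (c i).2, rfl⟩
  · rintro ⟨c, hc, rfl⟩
    exact ⟨fun i => ⟨c i, hc i⟩, Finset.mem_univ _, rfl⟩

/-- Neighbours in the torus. -/
def nbr (x y : Fin d → ZMod L) : Prop :=
  ∃ i, y = x + Pi.single i 1 ∨ x = y + Pi.single i 1

theorem box_card {x : Fin d → ZMod L} {b : ℕ} (hb : b ≤ L) : (box x b).card = b ^ d := by
  unfold box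
  rw [Finset.card_image_of_injective, Finset.card_univ, Fintype.card_fun, Fintype.card_fin,
    Fintype.card_fin]
  intro c c' h
  have h1 := add_left_cancel h
  funext i
  have h2 := congrFun h1 i
  have h3 : ((c i : ℕ) : ZMod L) = ((c' i : ℕ) : ZMod L) := h2
  rw [ZMod.natCast_eq_natCast_iff] at h3
  have h4 := Nat.ModEq.eq_of_lt_of_lt h3 (lt_of_lt_of_le (c i).2 hb) (lt_of_lt_of_le (c' i).2 hb)
  exact Fin.ext h4

theorem box_joined_aux (x : Fin d → ZMod L) (b : ℕ) : ∀ n : ℕ, ∀ c c' : Fin d → ℕ,
    (∀ i, c i < b) → (∀ i, c' i < b) → ∑ i, ((c i - c' i) + (c' i - c i)) = n →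
    Joined (box x b) nbr n (x + fun i => ((c i : ℕ) : ZMod L)) (x + fun i => ((c' i : ℕ) : ZMod L)) := by
  intro n
  induction n with
  | zero =>
    intro c c' hc hc' h
    have h1 : c = c' := by
      funext i
      have := (Finset.sum_eq_zero_iff.mp h) i (Finset.mem_univ i)
      omega
    rw [h1]
    exact Joined.refl _ (mem_box.mpr ⟨c', hc', rfl⟩)
  | succ n ih =>
    intro c c' hc hc' h
    obtain ⟨i, hi⟩ : ∃ i, c i ≠ c' i := by
      by_contra hcon
      push Not at hcon
      have : ∑ i, ((c i - c' i) + (c' i - c i)) = 0 :=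
        Finset.sum_eq_zero fun i _ => by rw [hcon i]; omega
      omega
    rcases lt_or_gt_of_ne hi with hlt | hgt
    · -- move up
      have h2 : ∀ j, Function.update c i (c i + 1) j < b := by
        intro j
        rcases eq_or_ne j i with rfl | hj
        · rw [Function.update_self]; have := hc' j; omega
        · rw [Function.update_of_ne hj]; exact hc j
      refine Joined.step (y := x + fun j => ((Function.update c i (c i + 1) j : ℕ) : ZMod L))
        (mem_box.mpr ⟨c, hc, rfl⟩) (mem_box.mpr ⟨_, h2, rfl⟩) ⟨i, Or.inl ?_⟩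
        (ih _ c' h2 hc' ?_)
      · funext j
        rcases eq_or_ne j i with rfl | hj
        · simp only [Pi.add_apply, Function.update_self, Pi.single_eq_same]; push_cast; ring
        · simp only [Pi.add_apply, Function.update_of_ne hj, Pi.single_eq_of_ne hj, add_zero]
      · rw [← Finset.add_sum_erase _ _ (Finset.mem_univ i)] at h ⊢
        rw [Function.update_self]
        have h3 : ∑ j ∈ Finset.univ.erase i, (Function.update c i (c i + 1) j - c' j +
            (c' j - Function.update c i (c i + 1) j)) =
            ∑ j ∈ Finset.univ.erase i, (c j - c' j + (c' j - c j)) :=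
          Finset.sum_congr rfl fun j hj => by
            rw [Function.update_of_ne (Finset.ne_of_mem_erase hj)]
        rw [h3]
        omega
    · -- move down
      have h2 : ∀ j, Function.update c i (c i - 1) j < b := by
        intro j
        rcases eq_or_ne j i with rfl | hj
        · rw [Function.update_self]; have := hc j; omega
        · rw [Function.update_of_ne hj]; exact hc j
      refine Joined.step (y := x + fun j => ((Function.update c i (c i - 1) j : ℕ) : ZMod L))
        (mem_box.mpr ⟨c, hc, rfl⟩) (mem_box.mpr ⟨_, h2, rfl⟩) ⟨i, Or.inr ?_⟩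
        (ih _ c' h2 hc' ?_)
      · funext j
        rcases eq_or_ne j i with rfl | hj
        · simp only [Pi.add_apply, Function.update_self, Pi.single_eq_same]
          have h4 : c j = (c j - 1) + 1 := by omega
          conv_lhs => rw [h4]
          push_cast; ring
        · simp only [Pi.add_apply, Function.update_of_ne hj, Pi.single_eq_of_ne hj, add_zero]
      · rw [← Finset.add_sum_erase _ _ (Finset.mem_univ i)] at h ⊢
        rw [Function.update_self]
        have h3 : ∑ j ∈ Finset.univ.erase i, (Function.update c i (c i - 1) j - c' j +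
            (c' j - Function.update c i (c i - 1) j)) =
            ∑ j ∈ Finset.univ.erase i, (c j - c' j + (c' j - c j)) :=
          Finset.sum_congr rfl fun j hj => by
            rw [Function.update_of_ne (Finset.ne_of_mem_erase hj)]
        rw [h3]
        omega

/-- The cube is connected. -/
theorem box_joined (x : Fin d → ZMod L) (b : ℕ) : ∀ z ∈ box x b, ∀ z' ∈ box x b,
    ∃ k ≤ d * b, Joined (box x b) nbr k z z' := by
  intro z hz z' hz'
  obtain ⟨c, hc, rfl⟩ := mem_box.mp hz
  obtain ⟨c', hc', rfl⟩ := mem_box.mp hz'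
  refine ⟨_, ?_, box_joined_aux x b _ c c' hc hc' rfl⟩
  calc ∑ i, ((c i - c' i) + (c' i - c i)) ≤ ∑ _i : Fin d, b :=
        Finset.sum_le_sum fun i _ => by have := hc i; have := hc' i; omega
    _ = d * b := by simp

theorem tv_box [NeZero L] {p : Perm (Fin d → ZMod L) → ℝ} {x : Fin d → ZMod L} {b : ℕ}
    (hb : b ≤ L) {e : ℝ} (he : 0 ≤ e)
    (h : ∀ z ∈ box x b, ∀ z' ∈ box x b, nbr z z' → tv p (rm (swap z z') p) ≤ e)
    (s : Perm (Fin d → ZMod L)) (hs : ∀ z, z ∉ box x b → s z = z) :
    tv p (rm s p) ≤ 2 * (d * b : ℕ) * (b ^ d : ℕ) * e := by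
  have := tv_perm he h (box_joined x b) s hs
  rw [box_card hb] at this
  exact this

end Box

end Pool.Agent.Stirring.HC
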